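import Pool.Agent.H27.Afp2

set_option autoImplicit false

namespace Pool.Agent.Results.MP_f650bf_an.UnifLip

open Filter Topology Set

theorem weak_cont (𝕜 : Type) [RCLike 𝕜] (X : Type) [NormedAddCommGroup X] [NormedSpace 𝕜 X]
    [NormedSpace ℝ X] [IsScalarTower ℝ 𝕜 X] :
    Continuous fun y : WeakSpace ℝ X => toWeakSpace 𝕜 X ((toWeakSpace ℝ X).symm y) := by
  refine WeakBilin.continuous_of_continuous_eval _ fun f => ?_
  have h1 := WeakBilin.eval_continuous (topDualPairing ℝ X).flip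
    (RCLike.reCLM.comp (ContinuousLinearMap.restrictScalars ℝ f))
  have h2 := WeakBilin.eval_continuous (topDualPairing ℝ X).flip
    (RCLike.imCLM.comp (ContinuousLinearMap.restrictScalars ℝ f))
  have h3 := (RCLike.continuous_ofReal.comp h1).add
    ((RCLike.continuous_ofReal.comp h2).mul (continuous_const (y := (RCLike.I : 𝕜))))
  refine h3.congr fun y => ?_
  exact RCLike.re_add_im (f ((toWeakSpace ℝ X).symm y))

/-- Every bounded closed convex subset of a real or complex Banach space that is not weakly compact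
contains a nonempty bounded closed convex set carrying a fixed point free, uniformly Lipschitz,
affine self-map. -/
theorem result (𝕜 : Type) [RCLike 𝕜] (X : Type) [NormedAddCommGroup X] [NormedSpace 𝕜 X]
    [NormedSpace ℝ X] [IsScalarTower ℝ 𝕜 X] [CompleteSpace X] (C : Set X)
    (hb : Bornology.IsBounded C) (hcl : IsClosed C) (hcv : Convex ℝ C)
    (hnw : ¬ IsCompact (toWeakSpace 𝕜 X '' C)) :
    ∃ K : Set X, K ⊆ C ∧ K.Nonempty ∧ Bornology.IsBounded K ∧ IsClosed K ∧ Convex ℝ K ∧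
      ∃ f : X → X, MapsTo f K K ∧
        (∀ x ∈ K, ∀ y ∈ K, ∀ t : ℝ, 0 ≤ t → t ≤ 1 →
          f (t • x + (1 - t) • y) = t • f x + (1 - t) • f y) ∧
        (∃ L : ℝ, 0 < L ∧ ∀ x ∈ K, ∀ y ∈ K, ∀ p : ℕ, ‖f^[p] x - f^[p] y‖ ≤ L * ‖x - y‖) ∧
        ∀ x ∈ K, f x ≠ x := by
  have hnw' : ¬ IsCompact (toWeakSpace ℝ X '' C) := fun h => hnw (by
    have := h.image (weak_cont 𝕜 X)
    rwa [image_image] at this)
  obtain ⟨x, M, M0, hx, hw⟩ := Pool.Agent.H27.Afp.exists_wide hb hcl hcv hnw'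
  obtain ⟨R, hR⟩ := hb.exists_norm_le
  obtain ⟨T, h1, h2, h3, h4⟩ := Pool.Agent.H27.Afp.main M0 hw fun n => hR _ (hx n)
  have hs : closure (convexHull ℝ (range x)) ⊆ C :=
    closure_minimal (convexHull_min (by rintro _ ⟨n, rfl⟩; exact hx n) hcv) hcl
  exact ⟨_, hs, ⟨x 0, subset_closure (subset_convexHull ℝ _ ⟨0, rfl⟩)⟩, hb.subset hs,
    isClosed_closure, (convex_convexHull ℝ _).closure, T, h1,
    fun a ha b hb t _ _ => h2 a ha b hb t, h3, h4⟩

end Pool.Agent.Results.MP_f650bf_an.UnifLip
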